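import Mathlib
import Pool.Agent.Q79.SMe

/-!
# Periodic orbits of the standard map which visit the critical strip at most once per period

`S_a (x, y) = (2x - y + a sin 2πx, x)` on the torus. The critical strip is the set where
`|2 + 2πa cos 2πx| < 1000`; its area is about `1000 / (π² a)`, and `S_a` is not uniformly expanding
in the `x`-direction only there. For all parameters `a ∈ [A, A + 1]` outside a set of measure at
most `1296 / A`, every periodic orbit of `S_a`, of any period `p`, which has at most one point (per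
period) in the strip is hyperbolic, with an eigenvalue of modulus larger than `2 ^ p`. The order
`1 / A` of the exceptional set is optimal.
-/

set_option autoImplicit false

open Real MeasureTheory

namespace Pool.Agent.Results.MP_9ee088_an.OneVisitOrbits

/-- The lift `(x, y) ↦ (2 x - y + a sin 2 π x, x)` of the standard map `S_a` to the plane. -/
noncomputable def planeMap (a : ℝ) (p : ℝ × ℝ) : ℝ × ℝ :=
  (2 * p.1 - p.2 + a * sin (2 * π * p.1), p.1)

/-- The class of `z` on the torus `ℝ² / ℤ²` is a fixed point of the `p`-th iterate of `S_a`. -/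
def IsPeriodic (a : ℝ) (p : ℕ) (z : ℝ × ℝ) : Prop :=
  ∃ k l : ℤ, (planeMap a)^[p] z = (z.1 + k, z.2 + l)

/-- The point `z` lies in the critical strip `|2 + 2πa cos 2πx| < 1000`. -/
def InStrip (a : ℝ) (z : ℝ × ℝ) : Prop := |2 + 2 * π * a * cos (2 * π * z.1)| < 1000

/-- At most one of the points `z, S_a z, ..., S_a^(p-1) z` lies in the critical strip. -/
def AtMostOneVisit (a : ℝ) (p : ℕ) (z : ℝ × ℝ) : Prop :=
  ∀ i j : ℕ, i < p → j < p → InStrip a ((planeMap a)^[i] z) → InStrip a ((planeMap a)^[j] z) → i = j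

/-- The trace of the derivative of `S_a^p` at `z`. -/
noncomputable def trace (a : ℝ) (p : ℕ) (z : ℝ × ℝ) : ℝ :=
  (fderiv ℝ ((planeMap a)^[p]) z (1, 0)).1 + (fderiv ℝ ((planeMap a)^[p]) z (0, 1)).2

/-- (1) For `A ≥ 10 ^ 7` and all `a ∈ [A, A + 1]` outside a set `B` of measure at most `1296 / A`:
every periodic point `z` of `S_a`, of any period `p`, with at most one point of the orbit in the
critical strip is hyperbolic: the trace of the derivative of `S_a^p` at `z` is larger than
`2 ^ (p + 1)` in absolute value, and the derivative has a real eigenvalue of modulus larger than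
`2 ^ p`. (2) For all integers `N ≥ 1` the set of the `a ∈ [N, N + 1]` for which `S_a` has an
elliptic fixed point has measure at least `1 / (8 N)`. -/
theorem result :
    (∀ A : ℝ, 10 ^ 7 ≤ A → ∃ B : Set ℝ, MeasurableSet B ∧ volume B ≤ ENNReal.ofReal (1296 / A) ∧
      ∀ a ∈ Set.Icc A (A + 1), a ∉ B → ∀ p : ℕ, 1 ≤ p → ∀ z : ℝ × ℝ, IsPeriodic a p z →
        AtMostOneVisit a p z → 2 ^ (p + 1) < |trace a p z| ∧
        ∃ (l : ℝ) (v : ℝ × ℝ), v ≠ 0 ∧ 2 ^ p < |l| ∧
          fderiv ℝ ((planeMap a)^[p]) z v = l • v) ∧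
    (∀ N : ℕ, 1 ≤ N → ENNReal.ofReal (1 / (8 * N)) ≤
      volume {a : ℝ | a ∈ Set.Icc (N : ℝ) (N + 1) ∧
        ∃ z : ℝ × ℝ, IsPeriodic a 1 z ∧ |trace a 1 z| < 2}) := by
  constructor
  · intro A hA
    refine ⟨toMeasurable volume (Pool.Agent.Q79.SM.Bad A), measurableSet_toMeasurable _ _, ?_, ?_⟩
    · rw [measure_toMeasurable]
      exact Pool.Agent.Q79.SM.Bad_vol hA
    · intro a ha hb p hp z hz hv
      have hb' : a ∉ Pool.Agent.Q79.SM.Bad A := fun h => hb (subset_toMeasurable _ _ h)
      have h1 : 2 ^ (p + 1) < |Pool.Agent.Q79.SM.tr a p z| :=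
        Pool.Agent.Q79.SM.main ha hb' hp hz hv
      refine ⟨h1, ?_⟩
      rw [Pool.Agent.Q79.SM.tr_eq] at h1
      obtain ⟨l, v, h2, h3, h4⟩ := Pool.Agent.Q79.SM.eigen
        (Pool.Agent.Q79.SM.mono_det _ p) (r := 2 ^ p) (one_le_pow₀ (by norm_num))
        (by rw [← pow_succ']; exact h1)
      refine ⟨l, v, h2, h3, ?_⟩
      have h5 := (Pool.Agent.Q79.SM.iter_deriv a z p).fderiv
      change fderiv ℝ ((Pool.Agent.Q79.SM.F a)^[p]) z v = l • v
      rw [h5]
      exact h4
  · intro N hN
    exact Pool.Agent.Q79.SM.elliptic_vol hN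

end Pool.Agent.Results.MP_9ee088_an.OneVisitOrbits
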