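import Mathlib
import Pool.Agent.Q69.SX.Sob

/-!
# Quenched exponential mixing for random standard maps (MP_9ee088_an)

Let `S_a(x,y) = (2x - y + a sin 2πx, x)` on the torus, and let `w 0, w 1, …` be independent kicks with an arbitrary law `ν` which is
neither a point mass nor carried by the half integers. The second moments of all correlations of square integrable functions
decay exponentially, and for almost every sequence of kicks the correlations of all functions with continuous mixed second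
derivatives decay exponentially, uniformly.
-/

set_option autoImplicit false

open MeasureTheory Filter Real

namespace Pool.Agent.Results.MP_9ee088_an.QuenchedMixing

/-- the orbit `T (w (n-1)) ∘ ⋯ ∘ T (w 0)` -/
def orbit (T : ℝ → UnitAddCircle × UnitAddCircle → UnitAddCircle × UnitAddCircle) (w : ℕ → ℝ) :
    ℕ → UnitAddCircle × UnitAddCircle → UnitAddCircle × UnitAddCircle
  | 0 => fun p => p
  | n + 1 => fun p => T (w n) (orbit T w n p)

/-- `φ` has continuous derivatives `φ_x`, `φ_y`, `φ_xy`, all bounded by `M` -/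
def MixedBound (φ : UnitAddCircle × UnitAddCircle → ℝ) (M : ℝ) : Prop :=
  ∃ φ₁ φ₂ φ₁₂ : UnitAddCircle × UnitAddCircle → ℝ,
    Continuous φ ∧ Continuous φ₁ ∧ Continuous φ₂ ∧ Continuous φ₁₂ ∧
    (∀ (x y : UnitAddCircle) (t : ℝ), HasDerivAt (fun t : ℝ => φ (x + (t : UnitAddCircle), y))
      (φ₁ (x + (t : UnitAddCircle), y)) t) ∧
    (∀ (x y : UnitAddCircle) (t : ℝ), HasDerivAt (fun t : ℝ => φ (x, y + (t : UnitAddCircle)))
      (φ₂ (x, y + (t : UnitAddCircle))) t) ∧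
    (∀ (x y : UnitAddCircle) (t : ℝ), HasDerivAt (fun t : ℝ => φ₁ (x, y + (t : UnitAddCircle)))
      (φ₁₂ (x, y + (t : UnitAddCircle))) t) ∧
    ∀ p, |φ p| ≤ M ∧ |φ₁ p| ≤ M ∧ |φ₂ p| ≤ M ∧ |φ₁₂ p| ≤ M

/-- For every probability measure `ν` on `ℝ`, not a point mass and not carried by the half integers, there is `c > 0` such that for
`F_n = S_{w (n-1)} ⋯ S_{w 0}`, the kicks `w i` independent with the law `ν`: `E Cov(φ ∘ F_n, ψ)² ≤ 2 e^(-c n) ‖φ‖² ‖ψ‖²` for all square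
integrable `φ, ψ` and all `n`, and almost surely `|Cov(φ ∘ F_n, ψ)| ≤ e^(-c n)` for all large `n`; and almost surely for all large `n`
`|Cov(φ ∘ F_n, ψ)| ≤ 16 e^(-c n) M N` for all `φ, ψ` at once which have continuous derivatives `φ_x, φ_y, φ_xy`, bounded with `φ` by `M`, and
`ψ_x, ψ_y, ψ_xy`, bounded with `ψ` by `N`. -/
theorem result (T : ℝ → UnitAddCircle × UnitAddCircle → UnitAddCircle × UnitAddCircle)
    (hT : ∀ a x y : ℝ, T a ((x : UnitAddCircle), (y : UnitAddCircle)) =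
      (((2 * x - y + a * sin (2 * π * x) : ℝ) : UnitAddCircle), (x : UnitAddCircle)))
    (ν : Measure ℝ) [IsProbabilityMeasure ν] (h1 : ∀ a, ν {a} ≠ 1) (h2 : ν {a | sin (2 * π * a) ≠ 0} ≠ 0) :
      ∃ c : ℝ, 0 < c ∧
        (∀ φ ψ : UnitAddCircle × UnitAddCircle → ℝ, Measurable φ →
          Integrable (fun p => φ p ^ 2) → Measurable ψ → Integrable (fun p => ψ p ^ 2) →
          (∀ n : ℕ, ∫ w, ((∫ p, φ (orbit T w n p) * ψ p) - (∫ p, φ p) * ∫ p, ψ p) ^ 2
            ∂(Measure.infinitePi fun _ : ℕ => ν) ≤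
              2 * exp (-(c * n)) * ((∫ p, φ p ^ 2) * ∫ p, ψ p ^ 2)) ∧
          ∀ᵐ w ∂(Measure.infinitePi fun _ : ℕ => ν), ∀ᶠ n : ℕ in atTop,
            |(∫ p, φ (orbit T w n p) * ψ p) - (∫ p, φ p) * ∫ p, ψ p| ≤ exp (-(c * n))) ∧
        ∀ᵐ w ∂(Measure.infinitePi fun _ : ℕ => ν), ∀ᶠ n : ℕ in atTop,
          ∀ (φ ψ : UnitAddCircle × UnitAddCircle → ℝ) (M N : ℝ),
            MixedBound φ M → MixedBound ψ N →
              |(∫ p, φ (orbit T w n p) * ψ p) - (∫ p, φ p) * ∫ p, ψ p| ≤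
                16 * exp (-(c * n)) * (M * N) := by
  have hTS : ∀ a p, T a p = Q69.SM.S a p := by
    intro a z
    obtain ⟨x, y⟩ := z
    obtain ⟨r, rfl⟩ := Q69.SM.exists_coe x
    obtain ⟨s, rfl⟩ := Q69.SM.exists_coe y
    rw [hT]
    unfold Q69.SM.S
    simp only [Q69.SM.sn_coe]
    refine Prod.ext ?_ rfl
    simp only
    rw [← AddCircle.coe_add, ← AddCircle.coe_sub, ← AddCircle.coe_add]
    congr 1
    ring
  have horb : ∀ w n p, orbit T w n p = Q69.SX.orbY Q69.SM.S w n p := by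
    intro w n p
    induction n with
    | zero => rfl
    | succ n ih =>
      change T (w n) (orbit T w n p) = Q69.SM.S (w n) (Q69.SX.orbY Q69.SM.S w n p)
      rw [ih, hTS]
  obtain ⟨c, hc, h⟩ := Q69.SX.quenched ν h1 h2
  obtain ⟨c', hc', h'⟩ := Q69.SX.quenched_all ν h1 h2
  obtain ⟨m, hm⟩ : ∃ m, m = min c c' := ⟨_, rfl⟩
  have hm0 : 0 < m := by rw [hm]; exact lt_min hc hc'
  have hmc : m ≤ c := by rw [hm]; exact min_le_left _ _
  have hmc' : m ≤ c' := by rw [hm]; exact min_le_right _ _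
  have hexp : ∀ n : ℕ, exp (-(c * n)) ≤ exp (-(m * n)) := by
    intro n
    apply exp_le_exp.2
    have : (0:ℝ) ≤ n := Nat.cast_nonneg n
    nlinarith
  have hexp' : ∀ n : ℕ, exp (-(c' * n)) ≤ exp (-(m * n)) := by
    intro n
    apply exp_le_exp.2
    have : (0:ℝ) ≤ n := Nat.cast_nonneg n
    nlinarith
  simp only [horb]
  refine ⟨m, hm0, fun φ ψ hφ hφ2 hψ hψ2 => ⟨fun n => ?_, ?_⟩, ?_⟩
  · refine ((h φ ψ ⟨hφ, hφ2⟩ ⟨hψ, hψ2⟩).1 n).trans ?_
    have hA : 0 ≤ (∫ p, φ p ^ 2) * ∫ p, ψ p ^ 2 :=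
      mul_nonneg (integral_nonneg fun p => sq_nonneg _) (integral_nonneg fun p => sq_nonneg _)
    exact mul_le_mul_of_nonneg_right (mul_le_mul_of_nonneg_left (hexp n) two_pos.le) hA
  · filter_upwards [(h φ ψ ⟨hφ, hφ2⟩ ⟨hψ, hψ2⟩).2] with w hw
    filter_upwards [hw] with n hn
    exact hn.trans (hexp n)
  · filter_upwards [h'] with w hw
    filter_upwards [hw] with n hn
    intro φ ψ M N hM hN
    refine (hn φ ψ M N hM hN).trans ?_
    obtain ⟨_, _, _, -, -, -, -, -, -, -, hMb⟩ := hM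
    obtain ⟨_, _, _, -, -, -, -, -, -, -, hNb⟩ := hN
    have hM0 : 0 ≤ M := (abs_nonneg _).trans (hMb 0).1
    have hN0 : 0 ≤ N := (abs_nonneg _).trans (hNb 0).1
    exact mul_le_mul_of_nonneg_right (mul_le_mul_of_nonneg_left (hexp' n) (by norm_num))
      (mul_nonneg hM0 hN0)


end Pool.Agent.Results.MP_9ee088_an.QuenchedMixing
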