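import Mathlib
import Pool.Agent.Q69.SM.Plane
import Pool.Agent.Q69.SM.Erg

/-!
# Standard maps with random kicks are ergodic and hyperbolic (MP_9ee088_an)

Let `S_a(x,y) = (2x - y + a sin 2πx, x)` and let `w 0, w 1, …` be independent random parameters
with an arbitrary common law `ν` on `ℝ` which is not a point mass.

* Lebesgue measure on the torus is ergodic: a set invariant mod 0 under `S_a` for `ν`-almost
  every `a` is null or conull.
* If moreover `ν` is not carried by the half integers, then there is `c > 0` such that for every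
  `n` the probability (kicks and a uniformly distributed initial point) that
  `‖D(S_{w (n-1)} ∘ ⋯ ∘ S_{w 0})‖ ≤ e^{cn}` is at most `2 e^{-cn}`; hence for almost every
  sequence of kicks and almost every initial point the norm is eventually larger than `e^{cn}`.
-/

set_option autoImplicit false

open MeasureTheory Filter Real

namespace Pool.Agent.Results.MP_9ee088_an.RandomKicks

/-- the standard map on the plane -/
noncomputable def planeMap (a : ℝ) (p : ℝ × ℝ) : ℝ × ℝ :=
  (2 * p.1 - p.2 + a * sin (2 * π * p.1), p.1)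

/-- the composition `S_{w (n-1)} ∘ ⋯ ∘ S_{w 0}` on the plane -/
noncomputable def comp (w : ℕ → ℝ) : ℕ → ℝ × ℝ → ℝ × ℝ
  | 0 => fun p => p
  | n + 1 => fun p => planeMap (w n) (comp w n p)

theorem comp_eq (w : ℕ → ℝ) (n : ℕ) : comp w n = Q69.SM.comp w n := by
  induction n with
  | zero => rfl
  | succ n ih =>
    funext p
    change planeMap (w n) (comp w n p) = Q69.SM.planeMap (w n) (Q69.SM.comp w n p)
    rw [ih]
    rfl

theorem result (ν : Measure ℝ) [IsProbabilityMeasure ν] (hν : ∀ a, ν {a} ≠ 1) :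
    (∀ T : ℝ → UnitAddCircle × UnitAddCircle → UnitAddCircle × UnitAddCircle,
      (∀ a x y : ℝ, T a ((x : UnitAddCircle), (y : UnitAddCircle)) =
        (((2 * x - y + a * sin (2 * π * x) : ℝ) : UnitAddCircle), (x : UnitAddCircle))) →
      ∀ A : Set (UnitAddCircle × UnitAddCircle), MeasurableSet A →
        (∀ᵐ a ∂ν, T a ⁻¹' A =ᵐ[volume] A) → volume A = 0 ∨ volume Aᶜ = 0) ∧
    (ν {a | sin (2 * π * a) ≠ 0} ≠ 0 →
      ∃ c : ℝ, 0 < c ∧
        (∀ n : ℕ, ((Measure.infinitePi fun _ : ℕ => ν).prod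
            (volume.restrict (Set.Ioc (0 : ℝ) 1 ×ˢ Set.Ioc (0 : ℝ) 1)))
            {q | ‖fderiv ℝ (comp q.1 n) q.2‖ ≤ exp (c * n)} ≤
              ENNReal.ofReal (2 * exp (-(c * n)))) ∧
        ∀ᵐ w ∂(Measure.infinitePi fun _ : ℕ => ν), ∀ᵐ p : ℝ × ℝ, ∀ᶠ n : ℕ in atTop,
          exp (c * n) < ‖fderiv ℝ (comp w n) p‖) := by
  refine ⟨fun T hT A hA hinv => ?_, fun h2 => ?_⟩
  · have hTS : ∀ a, T a = Q69.SM.S a := by
      intro a
      funext z
      obtain ⟨x, y⟩ := z
      obtain ⟨r, rfl⟩ := Q69.SM.exists_coe x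
      obtain ⟨s, rfl⟩ := Q69.SM.exists_coe y
      rw [hT]
      unfold Q69.SM.S
      simp only [Q69.SM.sn_coe]
      refine Prod.ext ?_ rfl
      simp only
      rw [← AddCircle.coe_add, ← AddCircle.coe_sub, ← AddCircle.coe_add]
      congr 1
      ring
    -- two different parameters
    obtain ⟨a, ha⟩ : ∃ a, T a ⁻¹' A =ᵐ[volume] A := by
      have h := hinv.exists
      exact h
    obtain ⟨b, hb, hab⟩ : ∃ b, T b ⁻¹' A =ᵐ[volume] A ∧ a ≠ b := by
      have h3 : ∃ᵐ b ∂ν, a ≠ b := by
        intro hcon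
        apply hν a
        have h4 : ∀ᵐ b ∂ν, b ∈ ({a} : Set ℝ) := by
          filter_upwards [hcon] with b hb
          simp only [not_not] at hb
          simp only [Set.mem_singleton_iff]
          exact hb.symm
        have h5 := ae_iff.1 h4
        have h6 : ν ({a} : Set ℝ)ᶜ = 0 := h5
        exact (prob_compl_eq_zero_iff (measurableSet_singleton a)).1 h6
      obtain ⟨b, hb1, hb2⟩ := (h3.and_eventually hinv).exists
      exact ⟨b, hb2, hb1⟩
    rw [hTS] at ha hb
    exact Q69.SM.pair_ergodic hab hA ha hb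
  · obtain ⟨c, hc, h⟩ := Q69.SM.large_dev_plane ν hν h2
    refine ⟨c, hc, fun n => ?_, ?_⟩
    · have h3 := h 0 0 n
      simp only [comp_eq]
      have e : Q69.SM.sq 0 0 = Set.Ioc (0 : ℝ) 1 ×ˢ Set.Ioc (0 : ℝ) 1 := by
        unfold Q69.SM.sq
        rw [zero_add]
      rw [e] at h3
      exact h3
    · simp only [comp_eq]
      exact Q69.SM.ae_growth ν hc h

end Pool.Agent.Results.MP_9ee088_an.RandomKicks
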