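import Mathlib
import Pool.Agent.Q69.SX.Sob

/-!
# Spectral gaps for two standard maps and for random standard maps, simultaneous motions of `k` points (MP_9ee088_an)

Let `S_a(x,y) = (2x - y + a sin 2πx, x)` on the torus.

* Two maps: if `a` is not a half integer and `b ≠ a`, then `ε ‖f‖² ≤ ‖f ∘ S_a - f‖² + ‖f ∘ S_b - f‖²` for all mean zero square integrable
  functions `f` of `k` points moved simultaneously, with `ε > 0` uniform for `a` in compact sets away from the half integers and all `b`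
  away from `a`.
* Independent kicks with an arbitrary law `ν` which is neither a point mass nor carried by the half integers: the averages over the kicks
  of mean zero square integrable functions of the orbits of `k` points decay exponentially in `L²`.
-/

set_option autoImplicit false

open MeasureTheory Filter Real

namespace Pool.Agent.Results.MP_9ee088_an.SpectralGap

/-- the orbit `T (w (n-1)) ∘ ⋯ ∘ T (w 0)` -/
def orbit (T : ℝ → UnitAddCircle × UnitAddCircle → UnitAddCircle × UnitAddCircle) (w : ℕ → ℝ) :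
    ℕ → UnitAddCircle × UnitAddCircle → UnitAddCircle × UnitAddCircle
  | 0 => fun p => p
  | n + 1 => fun p => T (w n) (orbit T w n p)

/-- (1) Two maps: for all `k`, `R`, `t > 0`, `s > 0` there is `ε > 0` such that for all `a, b` with `|a| ≤ R`, `|sin 2πa| ≥ s` and
`|b - a| ≥ t`: `ε ‖f‖² ≤ ‖f ∘ S_a - f‖² + ‖f ∘ S_b - f‖²` for all mean zero square integrable `f` on the `k`-th power of the torus, on which
the maps act diagonally. (2) For every probability measure `ν` on `ℝ`, not a point mass and not carried by the half integers, and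
every `k` there is `c > 0` with `‖E (f ∘ F_n)‖² ≤ 3 e^(-c n) ‖f‖²` for all these `f` and all `n`, where
`F_n = S_{w (n-1)} ⋯ S_{w 0}` acts diagonally and the kicks `w i` are independent with the law `ν`. -/
theorem result (T : ℝ → UnitAddCircle × UnitAddCircle → UnitAddCircle × UnitAddCircle)
    (hT : ∀ a x y : ℝ, T a ((x : UnitAddCircle), (y : UnitAddCircle)) =
      (((2 * x - y + a * sin (2 * π * x) : ℝ) : UnitAddCircle), (x : UnitAddCircle))) :
    (∀ (k : ℕ) (R t s : ℝ), 0 < t → 0 < s → ∃ ε : ℝ, 0 < ε ∧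
      ∀ a b : ℝ, |a| ≤ R → s ≤ |sin (2 * π * a)| → t ≤ |b - a| →
        ∀ f : (Fin k → UnitAddCircle × UnitAddCircle) → ℝ, Measurable f →
          Integrable (fun q => f q ^ 2) → ∫ q, f q = 0 →
          ε * ∫ q, f q ^ 2 ≤ (∫ q, (f (fun i => T a (q i)) - f q) ^ 2) +
            ∫ q, (f (fun i => T b (q i)) - f q) ^ 2) ∧
    ∀ (ν : Measure ℝ) [IsProbabilityMeasure ν], (∀ a, ν {a} ≠ 1) →
      ν {a | sin (2 * π * a) ≠ 0} ≠ 0 →
      ∀ k : ℕ, ∃ c : ℝ, 0 < c ∧ ∀ f : (Fin k → UnitAddCircle × UnitAddCircle) → ℝ,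
        Measurable f → Integrable (fun q => f q ^ 2) → ∫ q, f q = 0 → ∀ n : ℕ,
          ∫ q : Fin k → UnitAddCircle × UnitAddCircle,
            (∫ w, f (fun i => orbit T w n (q i)) ∂(Measure.infinitePi fun _ : ℕ => ν)) ^ 2 ≤
            3 * exp (-(c * n)) * ∫ q, f q ^ 2 := by
  have hTS : ∀ a p, T a p = Q69.SM.S a p := by
    intro a z
    obtain ⟨x, y⟩ := z
    obtain ⟨r, rfl⟩ := Q69.SM.exists_coe x
    obtain ⟨s, rfl⟩ := Q69.SM.exists_coe y
    rw [hT]
    unfold Q69.SM.S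
    simp only [Q69.SM.sn_coe]
    refine Prod.ext ?_ rfl
    simp only
    rw [← AddCircle.coe_add, ← AddCircle.coe_sub, ← AddCircle.coe_add]
    congr 1
    ring
  have horb : ∀ w n p, orbit T w n p = Q69.SX.orbY Q69.SM.S w n p := by
    intro w n p
    induction n with
    | zero => rfl
    | succ n ih =>
      change T (w n) (orbit T w n p) = Q69.SM.S (w n) (Q69.SX.orbY Q69.SM.S w n p)
      rw [ih, hTS]
  refine ⟨fun k R t s ht hs => ?_, fun ν hν h1 h2 k => ?_⟩
  · obtain ⟨ε, hε, h⟩ := Q69.SX.pair_gap (κ := Fin k) R t s ht hs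
    refine ⟨ε ^ 2 / 2, by positivity, fun a b ha hsa hab f hf hf2 hf0 => ?_⟩
    have hfL : Q69.SM.L2 volume f := ⟨hf, hf2⟩
    have h3 := h a b ha hsa hab (fun q => f (Q69.SX.EX (Fin k) q)) (Q69.SX.L2_EX hfL)
      (by rw [Q69.SX.int_EX]; exact hf0)
    have e1 : ∀ c : ℝ, Q69.SX.nrm volume (fun q => f (Q69.SX.EX (Fin k) (Q69.SX.SX c q)) -
        f (Q69.SX.EX (Fin k) q)) ^ 2 = ∫ q, (f (fun i => T c (q i)) - f q) ^ 2 := by
      intro c
      rw [Q69.SX.nrm_sq, ← Q69.SX.int_EX (fun q => (f (fun i => T c (q i)) - f q) ^ 2)]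
      congr 1
      funext q
      congr 3
      funext i
      rw [hTS]
      rfl
    have e2 : Q69.SX.nrm volume (fun q => f (Q69.SX.EX (Fin k) q)) ^ 2 = ∫ q, f q ^ 2 := by
      rw [Q69.SX.nrm_sq, ← Q69.SX.int_EX (fun q => f q ^ 2)]
    rw [← e1, ← e1, ← e2]
    obtain ⟨A, hA⟩ : ∃ A, A = Q69.SX.nrm volume (fun q =>
      f (Q69.SX.EX (Fin k) (Q69.SX.SX a q)) - f (Q69.SX.EX (Fin k) q)) := ⟨_, rfl⟩
    obtain ⟨B, hB⟩ : ∃ B, B = Q69.SX.nrm volume (fun q =>
      f (Q69.SX.EX (Fin k) (Q69.SX.SX b q)) - f (Q69.SX.EX (Fin k) q)) := ⟨_, rfl⟩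
    obtain ⟨C, hC⟩ : ∃ C, C = Q69.SX.nrm volume (fun q => f (Q69.SX.EX (Fin k) q)) := ⟨_, rfl⟩
    rw [← hA, ← hB, ← hC] at h3 ⊢
    have hC0 : 0 ≤ C := by rw [hC]; exact Q69.SX.nrm_nonneg _
    have h4 := pow_le_pow_left₀ (mul_nonneg hε.le hC0) h3 2
    nlinarith [sq_nonneg (A - B)]
  · obtain ⟨c, hc, h⟩ := Q69.SX.annealed (κ := Fin k) ν h1 h2
    refine ⟨c, hc, fun f hf hf2 hf0 n => ?_⟩
    simp only [horb]
    exact h f ⟨hf, hf2⟩ hf0 n

end Pool.Agent.Results.MP_9ee088_an.SpectralGap
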